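import Pool.Agent.H77.EA.Targets3
import Pool.Agent.H3.AM.A1
import Pool.Agent.H3.AM.A2

/-!
# XT: equal factor sets give an extension of the product
-/

open scoped Classical ComplexConjugate

namespace Pool.Agent.H4.EA.XT

open AMc AMe

section general

variable {G : Type} [Group G] {V W : Type} [AddCommGroup V] [Module ℂ V] [FiniteDimensional ℂ V]
  [AddCommGroup W] [Module ℂ W] [FiniteDimensional ℂ W]

theorem sum_eq [Fintype G] (ρ : Representation ℂ G V) (σ : Representation ℂ G W) :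
    ∑ g, σ.character g * ρ.character g⁻¹ =
      (Module.finrank ℂ (Representation.IntertwiningMap ρ σ) : ℂ) * (Nat.card G : ℂ) := by
  have hne : (Nat.card G : ℂ) ≠ 0 := by exact_mod_cast Nat.card_pos.ne'
  have : Invertible (Nat.card G : ℂ) := invertibleOfNonzero hne
  have h := Representation.card_inv_mul_sum_char_mul_char_eq_finrank ρ σ
  rw [← h, mul_comm (Nat.card G : ℂ)⁻¹, mul_assoc, inv_mul_cancel₀ hne, mul_one]

omit [FiniteDimensional ℂ V] in
theorem scalar_of_finrank (ρ : Representation ℂ G V)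
    (h : Module.finrank ℂ (Representation.IntertwiningMap ρ ρ) = 1) (f : V →ₗ[ℂ] V)
    (hf : ∀ g v, f (ρ g v) = ρ g (f v)) : ∃ c : ℂ, ∀ v, f v = c • v := by
  have hne : (1 : Representation.IntertwiningMap ρ ρ) ≠ 0 := by
    intro h0
    have : Subsingleton (Representation.IntertwiningMap ρ ρ) :=
      ⟨fun a b => by rw [← one_mul a, ← one_mul b, h0, zero_mul, zero_mul]⟩
    rw [Module.finrank_zero_of_subsingleton] at h
    exact zero_ne_one h
  have hsc := (finrank_eq_one_iff_of_nonzero' (1 : Representation.IntertwiningMap ρ ρ) hne).mp h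
  obtain ⟨c, hcc⟩ := hsc (LinearMap.intertwiningMap_of_isIntertwiningMap ρ ρ f hf)
  refine ⟨c, fun v => ?_⟩
  exact (congrArg (fun φ : Representation.IntertwiningMap ρ ρ => φ.toLinearMap v) hcc).symm

omit [FiniteDimensional ℂ V] in
theorem irr_of_finrank [Fintype G] (ρ : Representation ℂ G V)
    (h : Module.finrank ℂ (Representation.IntertwiningMap ρ ρ) = 1) : ρ.IsIrreducible := by
  have hne : (1 : Representation.IntertwiningMap ρ ρ) ≠ 0 := by
    intro h0
    have : Subsingleton (Representation.IntertwiningMap ρ ρ) :=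
      ⟨fun a b => by rw [← one_mul a, ← one_mul b, h0, zero_mul, zero_mul]⟩
    rw [Module.finrank_zero_of_subsingleton] at h
    exact zero_ne_one h
  have : NeZero (Nat.card G : ℂ) := ⟨by exact_mod_cast Nat.card_pos.ne'⟩
  have hss : Representation.IsSemisimpleRepresentation ρ := inferInstance
  have hnt : Nontrivial (Subrepresentation ρ) := by
    refine ⟨⟨⊥, ⊤, fun hbt => hne ?_⟩⟩
    have h1 : (⊥ : Submodule ℂ V) = ⊤ := congrArg Subrepresentation.toSubmodule hbt
    refine Representation.IntertwiningMap.ext ?_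
    refine LinearMap.ext fun v => ?_
    have hv : v ∈ (⊥ : Submodule ℂ V) := h1 ▸ Submodule.mem_top
    rw [(Submodule.mem_bot ℂ).mp hv, map_zero, map_zero]
  refine { toNontrivial := hnt, eq_bot_or_eq_top := fun W => ?_ }
  obtain ⟨W', hW'⟩ := hss.exists_isCompl W
  have hc : IsCompl W.toSubmodule W'.toSubmodule := by
    constructor
    · rw [disjoint_iff]
      exact congrArg Subrepresentation.toSubmodule (disjoint_iff.mp hW'.disjoint)
    · rw [codisjoint_iff]
      exact congrArg Subrepresentation.toSubmodule (codisjoint_iff.mp hW'.codisjoint)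
  have hint : ∀ (g : G) (v : V),
      W.toSubmodule.projection W'.toSubmodule hc (ρ g v) =
        ρ g (W.toSubmodule.projection W'.toSubmodule hc v) := by
    intro g v
    obtain ⟨a, ha, b, hb, rfl⟩ : ∃ a ∈ W.toSubmodule, ∃ b ∈ W'.toSubmodule, a + b = v :=
      Submodule.mem_sup.mp (hc.sup_eq_top ▸ Submodule.mem_top)
    have hga : ρ g a ∈ W.toSubmodule := W.apply_mem_toSubmodule g ha
    have hgb : ρ g b ∈ W'.toSubmodule := W'.apply_mem_toSubmodule g hb
    rw [map_add, map_add, map_add, Submodule.projection_apply_of_mem_left hc hga,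
      Submodule.projection_apply_of_mem_left hc ha,
      Submodule.projection_apply_of_mem_right hc hgb,
      Submodule.projection_apply_of_mem_right hc hb, add_zero, add_zero]
  obtain ⟨c, hcv⟩ := scalar_of_finrank ρ h (W.toSubmodule.projection W'.toSubmodule hc) hint
  by_cases hW : W.toSubmodule = ⊥
  · left
    exact Subrepresentation.toSubmodule_injective hW
  · right
    obtain ⟨w, hw, hw0⟩ := Submodule.exists_mem_ne_zero_of_ne_bot hW
    have h1 := hcv w
    rw [Submodule.projection_apply_of_mem_left hc hw] at h1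
    have hc1 : c = 1 := by
      have h5 : (c - 1) • w = 0 := by rw [sub_smul, one_smul, ← h1, sub_self]
      rcases smul_eq_zero.mp h5 with h | h
      · exact sub_eq_zero.mp h
      · exact absurd h hw0
    apply Subrepresentation.toSubmodule_injective
    refine Submodule.eq_top_iff'.mpr fun v => ?_
    have h2 := hcv v
    rw [hc1, one_smul] at h2
    rw [← h2]
    exact Submodule.projection_apply_mem hc v

omit [FiniteDimensional ℂ V] in
/-- a representation whose restriction along a homomorphism is irreducible is irreducible -/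
theorem irr_of_comp {Γ : Type} [Group Γ] (Φ : Representation ℂ Γ V) (i : G →* Γ)
    (h : Representation.IsIrreducible (Φ.comp i : Representation ℂ G V)) : Φ.IsIrreducible := by
  have key : ∀ W : Subrepresentation Φ, W.toSubmodule = ⊥ ∨ W.toSubmodule = ⊤ := by
    intro W
    have hW : ∃ W' : Subrepresentation (Φ.comp i : Representation ℂ G V),
        W'.toSubmodule = W.toSubmodule :=
      ⟨⟨W.toSubmodule, fun g v hv => W.apply_mem_toSubmodule (i g) hv⟩, rfl⟩
    obtain ⟨W', hW'⟩ := hW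
    rcases h.eq_bot_or_eq_top W' with h1 | h1
    · left
      rw [← hW', h1]
      rfl
    · right
      rw [← hW', h1]
      rfl
  have hbt : (⊥ : Submodule ℂ V) ≠ ⊤ := by
    intro hbt
    obtain ⟨a, b, hab⟩ := h.toNontrivial
    apply hab
    apply Subrepresentation.toSubmodule_injective
    have hs : Subsingleton (Submodule ℂ V) := subsingleton_of_bot_eq_top hbt
    exact Subsingleton.elim _ _
  refine { toNontrivial := ⟨⊥, ⊤, fun hh => hbt (congrArg Subrepresentation.toSubmodule hh)⟩,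
           eq_bot_or_eq_top := fun W => ?_ }
  rcases key W with h1 | h1
  · left
    exact Subrepresentation.toSubmodule_injective h1
  · right
    exact Subrepresentation.toSubmodule_injective h1

end general

section prod

variable {G₁ G₂ : Type} [Group G₁] [Group G₂] {n m : ℕ}

/-- the representation of the direct product on the linear maps -/
noncomputable def R (r₁ : Representation ℂ G₁ (Fin n → ℂ)) (r₂ : Representation ℂ G₂ (Fin m → ℂ)) :
    Representation ℂ (G₁ × G₂) ((Fin m → ℂ) →ₗ[ℂ] (Fin n → ℂ)) :=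
  Representation.linHom (r₂.comp (MonoidHom.snd G₁ G₂)) (r₁.comp (MonoidHom.fst G₁ G₂))

theorem R_apply (r₁ : Representation ℂ G₁ (Fin n → ℂ)) (r₂ : Representation ℂ G₂ (Fin m → ℂ))
    (g : G₁ × G₂) (f : (Fin m → ℂ) →ₗ[ℂ] (Fin n → ℂ)) :
    R r₁ r₂ g f = r₁ g.1 ∘ₗ f ∘ₗ r₂ g.2⁻¹ := by
  rw [R, Representation.linHom_apply]
  rfl

theorem char_R (r₁ : Representation ℂ G₁ (Fin n → ℂ)) (r₂ : Representation ℂ G₂ (Fin m → ℂ)) :
    (R r₁ r₂).character = mx r₁.character r₂.character := by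
  funext g
  rw [R, Representation.char_linHom, mx, mul_comm]
  rfl

theorem finrank_one [Fintype G₁] [Fintype G₂] (r₁ : Representation ℂ G₁ (Fin n → ℂ))
    (r₂ : Representation ℂ G₂ (Fin m → ℂ)) (h₁ : r₁.IsIrreducible) (h₂ : r₂.IsIrreducible)
    {V : Type} [AddCommGroup V] [Module ℂ V] [FiniteDimensional ℂ V]
    {W : Type} [AddCommGroup W] [Module ℂ W] [FiniteDimensional ℂ W]
    (ρ : Representation ℂ (G₁ × G₂) V) (hρ : ρ.character = mx r₁.character r₂.character)
    (σ : Representation ℂ (G₁ × G₂) W) (hσ : σ.character = mx r₁.character r₂.character) :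
    Module.finrank ℂ (Representation.IntertwiningMap ρ σ) = 1 := by
  have e := sum_eq ρ σ
  have e1 := sum_eq r₁ r₁
  have e2 := sum_eq r₂ r₂
  rw [Representation.IsIrreducible.finrank_intertwiningMap_self] at e1 e2
  have hsum : ∑ g : G₁ × G₂, σ.character g * ρ.character g⁻¹ =
      (∑ g, r₁.character g * r₁.character g⁻¹) * ∑ g, r₂.character g * r₂.character g⁻¹ := by
    rw [Fintype.sum_prod_type, Finset.sum_mul_sum]
    refine Finset.sum_congr rfl fun x _ => Finset.sum_congr rfl fun y _ => ?_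
    rw [hρ, hσ]
    simp only [mx, Prod.inv_mk, inv_inv]
    ring
  rw [hsum, e1, e2, Nat.card_prod] at e
  have hne1 : (Nat.card G₁ : ℂ) ≠ 0 := by exact_mod_cast Nat.card_pos.ne'
  have hne2 : (Nat.card G₂ : ℂ) ≠ 0 := by exact_mod_cast Nat.card_pos.ne'
  push_cast at e
  have h3 : (Module.finrank ℂ (Representation.IntertwiningMap ρ σ) : ℂ) = 1 := by
    have h4 := mul_ne_zero hne1 hne2
    apply mul_right_cancel₀ h4
    rw [← e]
    ring
  exact_mod_cast h3

end prod

theorem exists_rep {G₁ G₂ P : Type} [Group G₁] [Group G₂] [Group P]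
    (ρ₁ : P →* MulAut G₁) (ρ₂ : P →* MulAut G₂) {n m : ℕ}
    (r₁ : Representation ℂ G₁ (Fin n → ℂ)) (r₂ : Representation ℂ G₂ (Fin m → ℂ))
    (T₁ : P → ((Fin n → ℂ) →ₗ[ℂ] (Fin n → ℂ))) (T₂ : P → ((Fin m → ℂ) →ₗ[ℂ] (Fin m → ℂ)))
    (α : P → P → ℂ) (hα : ∀ p q, α p q ≠ 0)
    (hi₁ : ∀ p g, T₁ p ∘ₗ r₁ g = r₁ (ρ₁ p g) ∘ₗ T₁ p)
    (hi₂ : ∀ p g, T₂ p ∘ₗ r₂ g = r₂ (ρ₂ p g) ∘ₗ T₂ p)
    (hb₂ : ∀ p, Function.Bijective (T₂ p))
    (hb₁ : ∀ p, Function.Bijective (T₁ p))
    (hm₁ : ∀ p q, T₁ p ∘ₗ T₁ q = α p q • T₁ (p * q))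
    (hm₂ : ∀ p q, T₂ p ∘ₗ T₂ q = α p q • T₂ (p * q)) :
    ∃ Φ : Representation ℂ ((G₁ × G₂) ⋊[prA ρ₁ ρ₂] P) ((Fin m → ℂ) →ₗ[ℂ] (Fin n → ℂ)),
      ∀ g, Φ (SemidirectProduct.inl g) = R r₁ r₂ g := by
  -- the operators `U p`
  let U : P → (((Fin m → ℂ) →ₗ[ℂ] (Fin n → ℂ)) →ₗ[ℂ] ((Fin m → ℂ) →ₗ[ℂ] (Fin n → ℂ))) :=
    fun p =>
    { toFun := fun f => T₁ p ∘ₗ f ∘ₗ (LinearEquiv.ofBijective (T₂ p) (hb₂ p)).symm.toLinearMap
      map_add' := fun f f' => by
        rw [LinearMap.add_comp, LinearMap.comp_add]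
      map_smul' := fun c f => by
        rw [LinearMap.smul_comp, LinearMap.comp_smul]; rfl }
  have hU : ∀ p f, U p f ∘ₗ T₂ p = T₁ p ∘ₗ f := by
    intro p f
    refine LinearMap.ext fun v => ?_
    change T₁ p (f ((LinearEquiv.ofBijective (T₂ p) (hb₂ p)).symm (T₂ p v))) = T₁ p (f v)
    have : (LinearEquiv.ofBijective (T₂ p) (hb₂ p)).symm (T₂ p v) = v :=
      (LinearEquiv.ofBijective (T₂ p) (hb₂ p)).symm_apply_apply v
    rw [this]
  have hcan : ∀ p (f g : (Fin m → ℂ) →ₗ[ℂ] (Fin n → ℂ)), f ∘ₗ T₂ p = g ∘ₗ T₂ p → f = g := by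
    intro p f g h
    refine LinearMap.ext fun v => ?_
    obtain ⟨w, rfl⟩ := (hb₂ p).2 v
    exact congrArg (fun φ : (Fin m → ℂ) →ₗ[ℂ] (Fin n → ℂ) => φ w) h
  have hUU : ∀ p q f, U p (U q f) = U (p * q) f := by
    intro p q f
    apply hcan (p * q)
    apply smul_right_injective _ (hα p q)
    change α p q • (U p (U q f) ∘ₗ T₂ (p * q)) = α p q • (U (p * q) f ∘ₗ T₂ (p * q))
    rw [hU, ← LinearMap.comp_smul, ← hm₂, ← LinearMap.comp_assoc, hU, LinearMap.comp_assoc, hU,
      ← LinearMap.comp_assoc, hm₁, LinearMap.smul_comp]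
  have hU1 : ∀ f, U 1 f = f := by
    intro f
    have h1 : T₁ 1 = α 1 1 • LinearMap.id := by
      have h := hm₁ 1 1
      rw [mul_one] at h
      refine LinearMap.ext fun v => ?_
      obtain ⟨w, hw⟩ := (hb₁ 1).2 v
      apply (hb₁ 1).1
      have h' := congrArg (fun φ : (Fin n → ℂ) →ₗ[ℂ] (Fin n → ℂ) => φ v) h
      simp only [LinearMap.comp_apply, LinearMap.smul_apply] at h'
      rw [h', LinearMap.smul_apply, LinearMap.id_apply, map_smul]
    have h2 : T₂ 1 = α 1 1 • LinearMap.id := by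
      have h := hm₂ 1 1
      rw [mul_one] at h
      refine LinearMap.ext fun v => ?_
      apply (hb₂ 1).1
      have h' := congrArg (fun φ : (Fin m → ℂ) →ₗ[ℂ] (Fin m → ℂ) => φ v) h
      simp only [LinearMap.comp_apply, LinearMap.smul_apply] at h'
      rw [h', LinearMap.smul_apply, LinearMap.id_apply, map_smul]
    apply hcan 1
    rw [hU, h1, h2, LinearMap.smul_comp, LinearMap.comp_smul, LinearMap.id_comp,
      LinearMap.comp_id]
  have hUR : ∀ p g f, U p (R r₁ r₂ g f) = R r₁ r₂ (prA ρ₁ ρ₂ p g) (U p f) := by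
    intro p g f
    apply hcan p
    rw [hU, R_apply, R_apply]
    have e1 : (prA ρ₁ ρ₂ p g).1 = ρ₁ p g.1 := rfl
    have e2 : (prA ρ₁ ρ₂ p g).2 = ρ₂ p g.2 := rfl
    rw [e1, e2]
    have e3 : r₂ (ρ₂ p g.2)⁻¹ ∘ₗ T₂ p = T₂ p ∘ₗ r₂ g.2⁻¹ := by
      have e4 : ρ₂ p g.2⁻¹ = (ρ₂ p g.2)⁻¹ := map_inv (ρ₂ p) g.2
      rw [hi₂ p g.2⁻¹, e4]
    refine LinearMap.ext fun v => ?_
    have h1 := LinearMap.congr_fun e3 v
    have h2 := LinearMap.congr_fun (hU p f) (r₂ g.2⁻¹ v)
    have h3 := LinearMap.congr_fun (hi₁ p g.1) (f (r₂ g.2⁻¹ v))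
    simp only [LinearMap.comp_apply] at h1 h2 h3 ⊢
    rw [h1, h2, h3]
  refine ⟨{ toFun := fun x => R r₁ r₂ x.left ∘ₗ U x.right, map_one' := ?_, map_mul' := ?_ }, ?_⟩
  · refine LinearMap.ext fun f => ?_
    change R r₁ r₂ (1 : G₁ × G₂) (U 1 f) = f
    rw [hU1, map_one]
    rfl
  · intro x y
    refine LinearMap.ext fun f => ?_
    change R r₁ r₂ (x * y).left (U (x * y).right f) =
      R r₁ r₂ x.left (U x.right (R r₁ r₂ y.left (U y.right f)))
    rw [hUR, hUU, SemidirectProduct.mul_left, SemidirectProduct.mul_right, map_mul]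
    rfl
  · intro g
    refine LinearMap.ext fun f => ?_
    change R r₁ r₂ g (U 1 f) = R r₁ r₂ g f
    rw [hU1]

/-- XT -/
theorem xt : T_XT := by
  intro G₁ G₂ P _ _ _ _ _ _ ρ₁ ρ₂ a ha b hb α h₁ h₂
  obtain ⟨n, r₁, hr₁, rfl, T₁, hb₁, hi₁, hm₁⟩ := h₁
  obtain ⟨m, r₂, hr₂, rfl, T₂, hb₂, hi₂, hm₂⟩ := h₂
  have hn : 0 < n := irr_pos r₁ hr₁
  have hα : ∀ p q, α p q ≠ 0 := by
    intro p q h0
    have h := hm₁ p q
    rw [h0, zero_smul] at h
    have h1 : Function.Bijective (T₁ p ∘ₗ T₁ q) := (hb₁ p).comp (hb₁ q)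
    rw [h] at h1
    have h2 : (fun _ => 1 : Fin n → ℂ) = 0 := h1.1 rfl
    have h3 := congrFun h2 ⟨0, hn⟩
    exact one_ne_zero h3
  obtain ⟨Φ, hΦ⟩ := exists_rep ρ₁ ρ₂ r₁ r₂ T₁ T₂ α hα hi₁ hi₂ hb₂ hb₁ hm₁ hm₂
  obtain ⟨Φ', e, he⟩ := exists_transport Φ
  have hchar : ∀ x, Φ'.character x = Φ.character x := by
    intro x
    have h1 : Φ' x = e.toLinearMap ∘ₗ Φ x ∘ₗ e.symm.toLinearMap := by
      refine LinearMap.ext fun v => ?_
      change Φ' x v = e (Φ x (e.symm v))
      rw [he, LinearEquiv.apply_symm_apply]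
    rw [Representation.character, Representation.character, h1]
    exact LinearMap.trace_conj' (Φ x) e
  have hval : ∀ g, Φ'.character (SemidirectProduct.inl g) = mx r₁.character r₂.character g := by
    intro g
    rw [hchar, Representation.character, hΦ g]
    exact congrFun (char_R r₁ r₂) g
  have hirr' : Φ'.IsIrreducible := by
    apply irr_of_comp Φ' (SemidirectProduct.inl : (G₁ × G₂) →* _)
    apply irr_of_finrank
    have hc : Representation.character
        (Φ'.comp SemidirectProduct.inl : Representation ℂ (G₁ × G₂) _) =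
        mx r₁.character r₂.character := funext hval
    exact finrank_one r₁ r₂ hr₁ hr₂ _ hc _ hc
  exact ⟨Φ'.character, ⟨_, Φ', hirr', rfl⟩, hval⟩

end Pool.Agent.H4.EA.XT
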