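import Pool.Agent.H77.EA.Targets2
import Pool.Agent.H76.EA.DX

/-!
# MP_657073_al, module QC: invariant characters whose kernel contains a central `ℓ`-subgroup
-/

open scoped Classical ComplexConjugate

set_option linter.unusedSectionVars false

namespace Pool.Agent.H4.EA.QC

open AMc AMe Pool.Agent.H77.EA

section

variable {ℓ : ℕ} [Fact ℓ.Prime] {𝔪 : Ideal (integralClosure ℤ ℂ)}

theorem defect_same {G : Type} [Group G] [Fintype G] {χ χ' : G → ℂ} (h : SameBlock 𝔪 χ χ')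
    {D : Subgroup G} (hD : IsDefect ℓ 𝔪 χ D) : IsDefect ℓ 𝔪 χ' D := by
  have h1 : ∀ x, ¬ Cong 𝔪 (cen (MonoidHom.id G) χ x) 0 ↔
      ¬ Cong 𝔪 (cen (MonoidHom.id G) χ' x) 0 := fun x =>
    ⟨fun h2 h3 => h2 (cong_trans (h x) h3), fun h2 h3 => h2 (cong_trans (cong_symm (h x)) h3)⟩
  obtain ⟨hp, ⟨x, hx1, hx2⟩, h3⟩ := hD
  exact ⟨hp, ⟨x, (h1 x).1 hx1, hx2⟩, fun y hy => h3 y ((h1 y).2 hy)⟩

/-- central `ℓ`-subgroups lie in the defect groups -/
theorem le_defect {G : Type} [Group G] [Fintype G] {χ : G → ℂ} {D Z : Subgroup G}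
    (hD : IsDefect ℓ 𝔪 χ D) (hc : Z ≤ Subgroup.center G) (hl : IsPGroup ℓ Z) : Z ≤ D := by
  have hn : Z.Normal := ⟨fun z hz g => by
    have h1 := Subgroup.mem_center_iff.1 (hc hz) g
    rw [h1, mul_inv_cancel_right]
    exact hz⟩
  obtain ⟨h1, ⟨x, hx1, hx2, hx3⟩, h4⟩ := hD
  have h5 : IsPGroup ℓ (D ⊔ Z : Subgroup G) := h1.to_sup_of_normal_right hl
  have h6 : D ⊔ Z ≤ Subgroup.centralizer {x} :=
    sup_le hx2 (hc.trans (Subgroup.center_le_centralizer _))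
  have := Pool.Agent.H76.EA.eq_of_sylow_le h5 h6 h1 le_sup_left hx3
  rw [← this]
  exact le_sup_right

/-- inflation -/
theorem infl (QI : T_QI) (QN : T_QN) (QB : T_QB) (h𝔪 : 𝔪.IsMaximal)
    (hℓ : (ℓ : integralClosure ℤ ℂ) ∈ 𝔪) {G H : Type} [Group G] [Fintype G] [Group H]
    [Fintype H] (p : G →* H) (hp : Function.Surjective p) (hc : p.ker ≤ Subgroup.center G)
    (hl : IsPGroup ℓ p.ker) {D : Subgroup G} (hD : p.ker ≤ D) {D' : Subgroup H}
    (hD' : D.map p = D') {χ : G → ℂ} {a : H → ℂ} (ha : a ∈ Irr H)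
    (hχ : SameBlock 𝔪 χ (fun g => a (p g))) (σ : MulAut G) (τ : MulAut H)
    (hs : ∀ g, p (σ g) = τ (p g)) (Z : Subgroup G) (hZ : ∀ z, z ∈ Z ↔ p z = 1) :
    (FixC ℓ 𝔪 χ D σ Z 1).ncard = (FixC ℓ 𝔪 a D' τ ⊥ 1).ncard := by
  subst hD'
  have hQI := QI G H p hp
  have hQB := (QB ℓ 𝔪 h𝔪 hℓ G H p hp hc hl).1
  have hidx := (QN G H p hp D hD).1
  have hinj : Function.Injective (fun (x : H → ℂ) => (fun g => x (p g) : G → ℂ)) := by
    intro x y hxy
    funext h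
    obtain ⟨g, rfl⟩ := hp h
    exact congrFun hxy g
  rw [← Set.ncard_image_of_injective _ hinj]
  congr 1
  ext y
  constructor
  · rintro ⟨⟨hy1, hy2, d, hd1, hd2⟩, hy3, hy4⟩
    obtain ⟨x, hx, rfl⟩ := hQI.2 y hy1 (fun z hz => by
      have := hy4 z ((hZ z).2 hz)
      rwa [Pi.one_apply, one_mul] at this)
    refine ⟨x, ⟨⟨hx, ?_, d, ?_, ?_⟩, ?_, ?_⟩, rfl⟩
    · exact (hQB a ha x hx).2 (same_trans (same_symm hχ) hy2)
    · have : x (p 1) = d := hd1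
      rwa [map_one] at this
    · rw [← hidx]; exact hd2
    · intro h
      obtain ⟨g, rfl⟩ := hp h
      rw [← hs]
      exact hy3 g
    · intro z hz
      rw [Subgroup.mem_bot.1 hz, Pi.one_apply, one_mul]
  · rintro ⟨x, ⟨⟨hx1, hx2, d, hd1, hd2⟩, hx3, hx4⟩, rfl⟩
    refine ⟨⟨(hQI.1 x).1 hx1, ?_, d, ?_, ?_⟩, ?_, ?_⟩
    · exact same_trans hχ ((hQB a ha x hx1).1 hx2)
    · show x (p 1) = d
      rw [map_one]
      exact hd1
    · rw [hidx]; exact hd2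
    · intro g
      show x (p (σ g)) = x (p g)
      rw [hs]
      exact hx3 _
    · intro z hz
      show x (p z) = 1 * x (p 1)
      rw [(hZ z).1 hz, map_one, one_mul]

/-- the case when corresponding characters of the quotients are given -/
theorem core (QI : T_QI) (QN : T_QN) (QB : T_QB) (h𝔪 : 𝔪.IsMaximal)
    (hℓ : (ℓ : integralClosure ℤ ℂ) ∈ 𝔪) (CA : CountAll ℓ 𝔪) {G H : Type} [Group G] [Fintype G]
    [Group H] [Fintype H] (p : G →* H) (hp : Function.Surjective p)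
    (hc : p.ker ≤ Subgroup.center G) (hl : IsPGroup ℓ p.ker) {D : Subgroup G}
    (hD : p.ker ≤ D) {χ : G → ℂ} {ψ : Subgroup.normalizer (D : Set G) → ℂ}
    {σ : MulAut G} (hσ : Fixes 𝔪 D χ σ) (τ : MulAut H) (hs : ∀ g, p (σ g) = τ (p g))
    (p' : Subgroup.normalizer (D : Set G) →*
      Subgroup.normalizer ((D.map p : Subgroup H) : Set H))
    (hp' : Function.Surjective p') (hpp : ∀ x, (p' x : H) = p (x : G))
    (hk : ∀ x : Subgroup.normalizer (D : Set G), p' x = 1 ↔ p (x : G) = 1)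
    (hDm : (D.subgroupOf (Subgroup.normalizer (D : Set G))).map p' =
      (D.map p).subgroupOf (Subgroup.normalizer ((D.map p : Subgroup H) : Set H)))
    (hc' : p'.ker ≤ Subgroup.center (Subgroup.normalizer (D : Set G)))
    (hl' : IsPGroup ℓ p'.ker)
    {a : H → ℂ} {b : Subgroup.normalizer ((D.map p : Subgroup H) : Set H) → ℂ}
    (hB : Brauer ℓ 𝔪 (D.map p) a b) (h1 : SameBlock 𝔪 χ (fun g => a (p g)))
    (h2 : SameBlock 𝔪 ψ (fun x => b (p' x))) :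
    (FixC ℓ 𝔪 χ D σ p.ker 1).ncard =
      (FixC ℓ 𝔪 ψ (D.subgroupOf (Subgroup.normalizer (D : Set G))) (rs D σ hσ.1)
        (p.ker.subgroupOf (Subgroup.normalizer (D : Set G))) 1).ncard := by
  have hQI := QI G H p hp
  have hQB := (QB ℓ 𝔪 h𝔪 hℓ G H p hp hc hl).1
  have hmem : ∀ g, p g ∈ D.map p ↔ g ∈ D := by
    intro g
    constructor
    · rintro ⟨d, hd, hd'⟩
      have h3 : d⁻¹ * g ∈ p.ker := by
        rw [MonoidHom.mem_ker, map_mul, map_inv, hd', inv_mul_cancel]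
      have h4 := D.mul_mem hd (hD h3)
      rwa [mul_inv_cancel_left] at h4
    · intro h
      exact ⟨g, h, rfl⟩
  have hτ : Fixes 𝔪 (D.map p) a τ := by
    refine ⟨fun h => ?_, ?_⟩
    · obtain ⟨g, rfl⟩ := hp h
      rw [← hs, hmem, hmem]
      exact hσ.1 g
    · refine (hQB a hB.1 _ (irr_cmp τ hB.1)).2 ?_
      have h3 : SameBlock 𝔪 (cmp σ χ) (cmp σ (fun g => a (p g))) := same_cmp σ h1
      have h4 : (fun g => cmp τ a (p g)) = cmp σ (fun g => a (p g)) := by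
        funext g
        show a (τ (p g)) = a (p (σ g))
        rw [hs]
      show SameBlock 𝔪 (fun g => a (p g)) (fun g => cmp τ a (p g))
      rw [h4]
      exact same_trans (same_symm h1) (same_trans hσ.2 h3)
  have hD' : p'.ker ≤ D.subgroupOf (Subgroup.normalizer (D : Set G)) := by
    intro x hx
    rw [Subgroup.mem_subgroupOf]
    exact hD (MonoidHom.mem_ker.2 ((hk x).1 (MonoidHom.mem_ker.1 hx)))
  rw [infl QI QN QB h𝔪 hℓ p hp hc hl hD rfl hB.1 h1 σ τ hs p.ker (fun z => MonoidHom.mem_ker),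
    infl QI QN QB h𝔪 hℓ p' hp' hc' hl' hD' hDm hB.2.1 h2 (rs D σ hσ.1)
      (rs (D.map p) τ hτ.1) (fun x => by
        apply Subtype.ext
        rw [hpp, rs_coe, rs_coe, hpp, hs])
      (p.ker.subgroupOf (Subgroup.normalizer (D : Set G))) (fun z => by
        rw [Subgroup.mem_subgroupOf, MonoidHom.mem_ker, hk])]
  exact CA H (D.map p) a b hB τ hτ

theorem main (BT : T_BT) (QI : T_QI) (QN : T_QN) (QB : T_QB) (QR : T_QR) (h𝔪 : 𝔪.IsMaximal)
    (hℓ : (ℓ : integralClosure ℤ ℂ) ∈ 𝔪) (CA : CountAll ℓ 𝔪) {G H : Type} [Group G] [Fintype G]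
    [Group H] [Fintype H] (p : G →* H) (hp : Function.Surjective p)
    (hc : p.ker ≤ Subgroup.center G) (hl : IsPGroup ℓ p.ker) {D : Subgroup G}
    {χ : G → ℂ} {ψ : Subgroup.normalizer (D : Set G) → ℂ} (hB : Brauer ℓ 𝔪 D χ ψ)
    {σ : MulAut G} (hσ : Fixes 𝔪 D χ σ) (τ : MulAut H) (hs : ∀ g, p (σ g) = τ (p g)) :
    (FixC ℓ 𝔪 χ D σ p.ker 1).ncard =
      (FixC ℓ 𝔪 ψ (D.subgroupOf (Subgroup.normalizer (D : Set G))) (rs D σ hσ.1)
        (p.ker.subgroupOf (Subgroup.normalizer (D : Set G))) 1).ncard := by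
  have hD : p.ker ≤ D := le_defect hB.2.2.1 hc hl
  obtain ⟨-, p', hp', hpp, hk, hDm⟩ := QN G H p hp D hD
  have hc' : p'.ker ≤ Subgroup.center (Subgroup.normalizer (D : Set G)) := by
    intro x hx
    have h1 : (x : G) ∈ Subgroup.center G :=
      hc (MonoidHom.mem_ker.2 ((hk x).1 (MonoidHom.mem_ker.1 hx)))
    rw [Subgroup.mem_center_iff]
    intro g
    apply Subtype.ext
    exact Subgroup.mem_center_iff.1 h1 g
  have hl' : IsPGroup ℓ p'.ker := by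
    intro x
    obtain ⟨k, hk'⟩ := hl ⟨(x : Subgroup.normalizer (D : Set G)), MonoidHom.mem_ker.2
      ((hk x).1 (MonoidHom.mem_ker.1 x.2))⟩
    refine ⟨k, ?_⟩
    have h1 := congrArg (Subtype.val : p.ker → G) hk'
    apply Subtype.ext
    apply Subtype.ext
    exact h1
  have hBT := BT ℓ 𝔪 h𝔪 hℓ G D
  have hBT' := BT ℓ 𝔪 h𝔪 hℓ H (D.map p)
  have hQR := QR ℓ 𝔪 h𝔪 hℓ G H p hp hc D hD p' hp' hpp
  have hQI := QI G H p hp
  have hQI' := QI _ _ p' hp'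
  have hQB := QB ℓ 𝔪 h𝔪 hℓ G H p hp hc hl
  have hQB' := QB ℓ 𝔪 h𝔪 hℓ _ _ p' hp' hc' hl'
  by_cases hne : (FixC ℓ 𝔪 χ D σ p.ker 1).Nonempty
  · obtain ⟨a0, ⟨ha1, ha2, -⟩, -, ha4⟩ := hne
    obtain ⟨a, ha, rfl⟩ := hQI.2 a0 ha1 (fun z hz => by
      have := ha4 z (MonoidHom.mem_ker.2 hz)
      rwa [Pi.one_apply, one_mul] at this)
    have hd : IsDefect ℓ 𝔪 a (D.map p) := (hQB.2 a ha D (defect_same ha2 hB.2.2.1)).2
    obtain ⟨b, hb⟩ := hBT'.1 a ha hd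
    have hcor := hQR a b hb.2.2.2.2
    have hB0 : Brauer ℓ 𝔪 D (fun g => a (p g)) ψ := (hBT.2.2.2 χ ψ hB _ ha1).2 ha2
    have hb' : (fun x => b (p' x)) ∈ Irr (Subgroup.normalizer (D : Set G)) :=
      (hQI'.1 b).1 hb.2.1
    have h2 : SameBlock 𝔪 ψ (fun x => b (p' x)) := (hBT.2.2.1 _ ψ hB0 _ hb').1.2 hcor
    exact core QI QN QB h𝔪 hℓ CA p hp hc hl hD hσ τ hs p' hp' hpp hk hDm hc' hl' hb ha2 h2
  · by_cases hne2 : (FixC ℓ 𝔪 ψ (D.subgroupOf (Subgroup.normalizer (D : Set G)))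
        (rs D σ hσ.1) (p.ker.subgroupOf (Subgroup.normalizer (D : Set G))) 1).Nonempty
    · obtain ⟨b0, ⟨hb1, hb2, -⟩, -, hb4⟩ := hne2
      obtain ⟨b, hb, rfl⟩ := hQI'.2 b0 hb1 (fun z hz => by
        have := hb4 z (by
          rw [Subgroup.mem_subgroupOf, MonoidHom.mem_ker]
          exact (hk z).1 hz)
        rwa [Pi.one_apply, one_mul] at this)
      have hd : IsDefect ℓ 𝔪 b
          ((D.map p).subgroupOf (Subgroup.normalizer ((D.map p : Subgroup H) : Set H))) := by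
        rw [← hDm]
        exact (hQB'.2 b hb _ (defect_same hb2 hB.2.2.2.1)).2
      obtain ⟨a, ha⟩ := hBT'.2.1 b hb hd
      have hcor := hQR a b ha.2.2.2.2
      have hB0 : Brauer ℓ 𝔪 D χ (fun x => b (p' x)) := (hBT.2.2.1 χ ψ hB _ hb1).2 hb2
      have h1 : SameBlock 𝔪 χ (fun g => a (p g)) :=
        (hBT.2.2.2 χ _ hB0 _ ((hQI.1 a).1 ha.1)).1.2 hcor
      exact core QI QN QB h𝔪 hℓ CA p hp hc hl hD hσ τ hs p' hp' hpp hk hDm hc' hl' ha h1 hb2
    · rw [Set.not_nonempty_iff_eq_empty.1 hne, Set.not_nonempty_iff_eq_empty.1 hne2,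
        Set.ncard_empty, Set.ncard_empty]

end

theorem qc (BT : T_BT) (QI : T_QI) (QN : T_QN) (QB : T_QB) (QR : T_QR) : T_QC := by
  intro ℓ _ 𝔪 h𝔪 hℓ CA G _ _ D χ ψ hB σ hσ Z hc hl hZ
  have hn : Z.Normal := ⟨fun z hz g => by
    have h1 := Subgroup.mem_center_iff.1 (hc hz) g
    rw [h1, mul_inv_cancel_right]
    exact hz⟩
  let _ : Fintype (G ⧸ Z) := Fintype.ofFinite _
  have hmap : Z.map σ.toMonoidHom = Z := by
    ext g
    constructor
    · rintro ⟨z, hz, rfl⟩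
      exact (hZ z).2 hz
    · intro hg
      refine ⟨σ⁻¹ g, ?_, MulAut.apply_inv_self G σ g⟩
      have := hZ (σ⁻¹ g)
      rw [MulAut.apply_inv_self] at this
      exact this.1 hg
  have hk : (QuotientGroup.mk' Z).ker = Z := QuotientGroup.ker_mk' Z
  have key := main BT QI QN QB QR h𝔪 hℓ CA (QuotientGroup.mk' Z)
    (QuotientGroup.mk'_surjective Z) (by rw [hk]; exact hc) (by rw [hk]; exact hl) hB hσ
    (QuotientGroup.congr Z Z σ hmap) (fun g => rfl)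
  rw [hk] at key
  exact key

end Pool.Agent.H4.EA.QC
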