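import Pool.Agent.H4.EA.XT

/-!
# XU: an extension of the product gives equal factor sets
-/

open scoped Classical ComplexConjugate

namespace Pool.Agent.H4.EA.XU

open AMc AMe XT

theorem exists_tw {G₁ G₂ P : Type} [Group G₁] [Group G₂] [Group P]
    (ρ₁ : P →* MulAut G₁) (ρ₂ : P →* MulAut G₂) {n m : ℕ}
    (r₁ : Representation ℂ G₁ (Fin n → ℂ)) (r₂ : Representation ℂ G₂ (Fin m → ℂ)) (p : P)
    (T₁ : (Fin n → ℂ) →ₗ[ℂ] (Fin n → ℂ)) (T₂ : (Fin m → ℂ) →ₗ[ℂ] (Fin m → ℂ))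
    (hi₁ : ∀ g, T₁ ∘ₗ r₁ g = r₁ (ρ₁ p g) ∘ₗ T₁) (hi₂ : ∀ g, T₂ ∘ₗ r₂ g = r₂ (ρ₂ p g) ∘ₗ T₂)
    (hb₁ : Function.Bijective T₁) (hb₂ : Function.Bijective T₂) :
    ∃ W : ((Fin m → ℂ) →ₗ[ℂ] (Fin n → ℂ)) ≃ₗ[ℂ] ((Fin m → ℂ) →ₗ[ℂ] (Fin n → ℂ)),
      (∀ f, W f ∘ₗ T₂ = T₁ ∘ₗ f) ∧ ∀ g f, W (R r₁ r₂ g f) = R r₁ r₂ (prA ρ₁ ρ₂ p g) (W f) := by
  let e₁ := LinearEquiv.ofBijective T₁ hb₁
  let e₂ := LinearEquiv.ofBijective T₂ hb₂
  let W : ((Fin m → ℂ) →ₗ[ℂ] (Fin n → ℂ)) ≃ₗ[ℂ] ((Fin m → ℂ) →ₗ[ℂ] (Fin n → ℂ)) :=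
    { toFun := fun f => e₁.toLinearMap ∘ₗ f ∘ₗ e₂.symm.toLinearMap
      invFun := fun f => e₁.symm.toLinearMap ∘ₗ f ∘ₗ e₂.toLinearMap
      map_add' := fun f f' => by
        rw [LinearMap.add_comp, LinearMap.comp_add]
      map_smul' := fun c f => by
        rw [LinearMap.smul_comp, LinearMap.comp_smul]; rfl
      left_inv := fun f => by
        refine LinearMap.ext fun v => ?_
        change e₁.symm (e₁ (f (e₂.symm (e₂ v)))) = f v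
        rw [LinearEquiv.symm_apply_apply, LinearEquiv.symm_apply_apply]
      right_inv := fun f => by
        refine LinearMap.ext fun v => ?_
        change e₁ (e₁.symm (f (e₂ (e₂.symm v)))) = f v
        rw [LinearEquiv.apply_symm_apply, LinearEquiv.apply_symm_apply] }
  have hW : ∀ f, W f ∘ₗ T₂ = T₁ ∘ₗ f := by
    intro f
    refine LinearMap.ext fun v => ?_
    change T₁ (f (e₂.symm (e₂ v))) = T₁ (f v)
    rw [LinearEquiv.symm_apply_apply]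
  refine ⟨W, hW, fun g f => ?_⟩
  refine LinearMap.ext fun v => ?_
  obtain ⟨w, rfl⟩ := hb₂.2 v
  have e3 : r₂ (ρ₂ p g.2)⁻¹ (T₂ w) = T₂ (r₂ g.2⁻¹ w) := by
    have e4 : ρ₂ p g.2⁻¹ = (ρ₂ p g.2)⁻¹ := map_inv (ρ₂ p) g.2
    have h := LinearMap.congr_fun (hi₂ g.2⁻¹) w
    rw [e4] at h
    exact h.symm
  have h0 := LinearMap.congr_fun (hW (R r₁ r₂ g f)) w
  have h2 := LinearMap.congr_fun (hW f) (r₂ g.2⁻¹ w)
  have h3 := LinearMap.congr_fun (hi₁ g.1) (f (r₂ g.2⁻¹ w))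
  rw [XT.R_apply] at h0
  simp only [LinearMap.comp_apply] at h0 h2 h3
  rw [XT.R_apply, XT.R_apply]
  simp only [LinearMap.comp_apply]
  have e1 : (prA ρ₁ ρ₂ p g).1 = ρ₁ p g.1 := rfl
  have e2 : (prA ρ₁ ρ₂ p g).2 = ρ₂ p g.2 := rfl
  rw [e1, e2, h0, e3, h2, h3]

/-- XU -/
theorem xu (hXS : T_XS) : T_XU := by
  intro G₁ G₂ P _ _ _ _ _ _ ρ₁ ρ₂ a ha b hb hρ₁ hρ₂ hE
  obtain ⟨α₁, n, r₁, hr₁, har, T₁, hb₁, hi₁, hm₁⟩ := (hXS G₁ P ρ₁ a ha hρ₁).1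
  obtain ⟨α₂, m, r₂, hr₂, hbr, T₂, hb₂, hi₂, hm₂⟩ := (hXS G₂ P ρ₂ b hb hρ₂).1
  obtain ⟨χ, ⟨N, Φ, hΦ, rfl⟩, hχ⟩ := hE
  have hn : 0 < n := irr_pos r₁ hr₁
  have hm : 0 < m := irr_pos r₂ hr₂
  let σ : Representation ℂ (G₁ × G₂) (Fin N → ℂ) := Φ.comp SemidirectProduct.inl
  have hσ : σ.character = mx r₁.character r₂.character := by
    rw [har, hbr]
    exact funext hχ
  have hσi : σ.IsIrreducible := irr_of_finrank _ (finrank_one r₁ r₂ hr₁ hr₂ _ hσ _ hσ)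
  have hRR := finrank_one r₁ r₂ hr₁ hr₂ _ (char_R r₁ r₂) _ (char_R r₁ r₂)
  have hRi : (R r₁ r₂).IsIrreducible := irr_of_finrank _ hRR
  have h1 := finrank_one r₁ r₂ hr₁ hr₂ _ (char_R r₁ r₂) σ hσ
  have hnt : Nontrivial (Representation.IntertwiningMap (R r₁ r₂) σ) := by
    apply Module.nontrivial_of_finrank_pos (R := ℂ)
    rw [h1]; exact Nat.one_pos
  obtain ⟨f, hf⟩ := exists_ne (0 : Representation.IntertwiningMap (R r₁ r₂) σ)
  have hbij : Function.Bijective f :=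
    (Representation.IsIrreducible.bijective_or_eq_zero f).resolve_right hf
  let E : ((Fin m → ℂ) →ₗ[ℂ] (Fin n → ℂ)) ≃ₗ[ℂ] (Fin N → ℂ) :=
    LinearEquiv.ofBijective f.toLinearMap hbij
  have hEg : ∀ g w, E (R r₁ r₂ g w) = Φ (SemidirectProduct.inl g) (E w) := by
    intro g w
    exact LinearMap.congr_fun (f.isIntertwining' g) w
  have hΦm : ∀ x y v, Φ x (Φ y v) = Φ (x * y) v := by
    intro x y v
    rw [map_mul]; rfl
  have hΦ1 : ∀ v, Φ 1 v = v := by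
    intro v
    rw [map_one]; rfl
  -- the operators
  let U : P → (((Fin m → ℂ) →ₗ[ℂ] (Fin n → ℂ)) →ₗ[ℂ] ((Fin m → ℂ) →ₗ[ℂ] (Fin n → ℂ))) :=
    fun p => E.symm.toLinearMap ∘ₗ Φ (SemidirectProduct.inr p) ∘ₗ E.toLinearMap
  have hU : ∀ p w, E (U p w) = Φ (SemidirectProduct.inr p) (E w) := by
    intro p w
    exact E.apply_symm_apply _
  have hUU : ∀ p q w, U p (U q w) = U (p * q) w := by
    intro p q w
    apply E.injective
    rw [hU, hU, hU, hΦm, ← map_mul]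
  have hUR : ∀ p g w, U p (R r₁ r₂ g w) = R r₁ r₂ (prA ρ₁ ρ₂ p g) (U p w) := by
    intro p g w
    apply E.injective
    rw [hU, hEg, hΦm, hEg, hU, hΦm, SemidirectProduct.inl_aut, map_inv, inv_mul_cancel_right]
  have hUinj : ∀ p w, U p w = 0 → w = 0 := by
    intro p w h
    have h2 := hUU p⁻¹ p w
    rw [h, map_zero, inv_mul_cancel] at h2
    apply E.injective
    have h3 := hU 1 w
    rw [← h2, map_zero, map_one, hΦ1] at h3
    rw [← h3, map_zero]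
  -- comparison
  have hsc : ∀ p, ∃ c : ℂ, c ≠ 0 ∧ ∀ w, U p w ∘ₗ T₂ p = (c • T₁ p) ∘ₗ w := by
    intro p
    obtain ⟨W, hW, hWR⟩ := exists_tw ρ₁ ρ₂ r₁ r₂ p (T₁ p) (T₂ p) (hi₁ p) (hi₂ p) (hb₁ p) (hb₂ p)
    obtain ⟨c, hc⟩ := scalar_of_finrank (R r₁ r₂) hRR (W.symm.toLinearMap ∘ₗ U p) (by
      intro g v
      apply W.injective
      change W (W.symm (U p (R r₁ r₂ g v))) = W (R r₁ r₂ g (W.symm (U p v)))
      rw [W.apply_symm_apply, hWR, W.apply_symm_apply, hUR])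
    have hc' : ∀ w, U p w = c • W w := by
      intro w
      have h := congrArg W (hc w)
      rw [map_smul] at h
      rw [← h]
      exact (W.apply_symm_apply _).symm
    refine ⟨c, ?_, fun w => ?_⟩
    · rintro rfl
      have h0 : ∀ w, w = (0 : (Fin m → ℂ) →ₗ[ℂ] (Fin n → ℂ)) := by
        intro w
        apply hUinj p
        rw [hc', zero_smul]
      have h2 := h0 ((LinearMap.proj (⟨0, hm⟩ : Fin m) : (Fin m → ℂ) →ₗ[ℂ] ℂ).smulRight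
        (fun _ => 1 : Fin n → ℂ))
      have h3 := congrFun (LinearMap.congr_fun h2 (fun _ => 1)) ⟨0, hn⟩
      simp at h3
    · rw [hc', LinearMap.smul_comp, hW, LinearMap.smul_comp]
  choose c hc0 hc using hsc
  refine ⟨α₂, ⟨n, r₁, hr₁, har, fun p => c p • T₁ p, fun p => ?_, fun p g => ?_, fun p q => ?_⟩,
    ⟨m, r₂, hr₂, hbr, T₂, hb₂, hi₂, hm₂⟩⟩
  · constructor
    · intro x y hxy
      apply (hb₁ p).1
      exact smul_right_injective _ (hc0 p) hxy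
    · intro y
      obtain ⟨x, hx⟩ := (hb₁ p).2 ((c p)⁻¹ • y)
      refine ⟨x, ?_⟩
      rw [LinearMap.smul_apply, hx, smul_smul, mul_inv_cancel₀ (hc0 p), one_smul]
  · rw [LinearMap.smul_comp, hi₁, LinearMap.comp_smul]
  · -- the factor set
    have key : ∀ w : (Fin m → ℂ) →ₗ[ℂ] (Fin n → ℂ),
        ((c p • T₁ p) ∘ₗ (c q • T₁ q)) ∘ₗ w = (α₂ p q • (c (p * q) • T₁ (p * q))) ∘ₗ w := by
      intro w
      rw [LinearMap.comp_assoc, ← hc q w, ← LinearMap.comp_assoc, ← hc p, LinearMap.comp_assoc,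
        hm₂, hUU, LinearMap.comp_smul, hc, LinearMap.smul_comp (α₂ p q)]
    refine LinearMap.ext fun v => ?_
    have h := LinearMap.congr_fun (key ((LinearMap.proj (⟨0, hm⟩ : Fin m) :
      (Fin m → ℂ) →ₗ[ℂ] ℂ).smulRight v)) (fun _ => 1)
    simpa using h

end Pool.Agent.H4.EA.XU
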