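import Pool.Agent.H77.EA.Targets2
import Pool.Agent.H76.EA.DX

/-!
# MP_657073_al, module QB: blocks of the quotient by a central `ℓ`-subgroup
-/

open scoped Classical ComplexConjugate

set_option linter.unusedSectionVars false

namespace Pool.Agent.H4.EA

open AMc AMe Pool.Agent.H77.EA

section ele

variable {𝔪 : Ideal (integralClosure ℤ ℂ)}

theorem cong_nat_mul {a b : ℂ} (h : Cong 𝔪 a b) (n : ℕ) : Cong 𝔪 (n * a) (n * b) := by
  obtain ⟨c, hc, h1⟩ := h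
  refine ⟨n * c, 𝔪.mul_mem_left _ hc, ?_⟩
  push_cast
  rw [h1]; ring

variable {G H : Type} [Group G] [Fintype G] [Group H] [Fintype H] (p : G →* H)

/-- the number of conjugates of `x` in the coset `x * ker p` -/
noncomputable def cn (x : G) : ℕ :=
  (Finset.univ.filter (fun z : G => p z = 1 ∧ IsConj x (x * z))).card

theorem isConj_mul_iff (hc : p.ker ≤ Subgroup.center G) (x g z : G) (hz : p z = 1) :
    IsConj x (g * x * g⁻¹ * z) ↔ IsConj x (x * z) := by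
  have h1 : ∀ u : G, u * z = z * u := fun u =>
    (Subgroup.mem_center_iff.1 (hc (MonoidHom.mem_ker.2 hz)) u)
  rw [isConj_iff, isConj_iff]
  constructor
  · rintro ⟨c, hc1⟩
    refine ⟨g⁻¹ * c, ?_⟩
    have e1 : g⁻¹ * c * x * (g⁻¹ * c)⁻¹ = g⁻¹ * (c * x * c⁻¹) * g := by group
    rw [e1, hc1]
    have e2 : g⁻¹ * (g * x * g⁻¹ * z) * g = x * g⁻¹ * (z * g) := by group
    rw [e2, ← h1 g]
    group
  · rintro ⟨c, hc1⟩
    refine ⟨g * c, ?_⟩
    have e1 : g * c * x * (g * c)⁻¹ = g * (c * x * c⁻¹) * g⁻¹ := by group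
    rw [e1, hc1]
    have e2 : g * (x * z) * g⁻¹ = g * x * (z * g⁻¹) := by group
    rw [e2, ← h1 g⁻¹]
    group

theorem card_fib (hp : Function.Surjective p) (hc : p.ker ≤ Subgroup.center G) (x : G) (h : H)
    (hh : IsConj (p x) h) :
    ((Finset.univ.filter (fun y : G => p y = h)).filter (fun y : G => IsConj x y)).card =
      cn p x := by
  obtain ⟨k, hk⟩ := isConj_iff.1 hh
  obtain ⟨g, rfl⟩ := hp k
  symm
  unfold cn
  refine Finset.card_bij (fun z _ => g * x * g⁻¹ * z) ?_ ?_ ?_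
  · intro z hz
    obtain ⟨hz1, hz2⟩ := (Finset.mem_filter.1 hz).2
    refine Finset.mem_filter.2 ⟨Finset.mem_filter.2 ⟨Finset.mem_univ _, ?_⟩, ?_⟩
    · rw [map_mul, hz1, mul_one, map_mul, map_mul, map_inv, hk]
    · exact (isConj_mul_iff p hc x g z hz1).2 hz2
  · intro z _ w _ h
    exact mul_left_cancel h
  · intro y hy
    obtain ⟨hy1, hy2⟩ := Finset.mem_filter.1 hy
    have hy3 := (Finset.mem_filter.1 hy1).2
    have hz : p ((g * x * g⁻¹)⁻¹ * y) = 1 := by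
      rw [map_mul, map_inv, map_mul, map_mul, map_inv, hk, hy3, inv_mul_cancel]
    have e : g * x * g⁻¹ * ((g * x * g⁻¹)⁻¹ * y) = y := by group
    refine ⟨(g * x * g⁻¹)⁻¹ * y, Finset.mem_filter.2 ⟨Finset.mem_univ _, hz, ?_⟩, e⟩
    rw [← isConj_mul_iff p hc x g _ hz, e]
    exact hy2

/-- central characters of inflated functions -/
theorem cen_inf (hp : Function.Surjective p) (hc : p.ker ≤ Subgroup.center G) (a : H → ℂ)
    (x : G) : cen (MonoidHom.id G) (fun g => a (p g)) x =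
      (cn p x : ℂ) * cen (MonoidHom.id H) a (p x) := by
  unfold cen
  simp only [map_one]
  rw [← mul_div_assoc]
  congr 1
  simp only [MonoidHom.id_apply]
  rw [Finset.mul_sum, ← Finset.sum_fiberwise (s := Finset.univ) (g := p)]
  refine Finset.sum_congr rfl fun h _ => ?_
  by_cases hh : IsConj (p x) h
  · rw [if_pos hh, ← card_fib p hp hc x h hh, ← Finset.sum_filter]
    rw [Finset.sum_congr rfl (g := fun _ => a h) (fun y hy => by
      rw [(Finset.mem_filter.1 (Finset.mem_filter.1 hy).1).2])]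
    rw [Finset.sum_const, nsmul_eq_mul]
  · rw [if_neg hh, mul_zero]
    refine Finset.sum_eq_zero fun y hy => ?_
    rw [if_neg]
    intro hxy
    apply hh
    have h1 : p y = h := (Finset.mem_filter.1 hy).2
    rw [← h1]
    exact p.map_isConj hxy

variable {ℓ : ℕ} [Fact ℓ.Prime]

/-- `x` and `x * z` are not conjugate for `ℓ`-regular `x` and central `ℓ`-elements `z ≠ 1` -/
theorem reg_eq_one (hc : p.ker ≤ Subgroup.center G) (hl : IsPGroup ℓ p.ker) {x z : G}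
    (hx : ¬ ℓ ∣ orderOf x) (hz : p z = 1) (h : IsConj x (x * z)) : z = 1 := by
  have h1 : Commute x z := (Subgroup.mem_center_iff.1 (hc (MonoidHom.mem_ker.2 hz)) x)
  have h2 : (x * z) ^ orderOf x = 1 := by
    obtain ⟨c, hc1⟩ := isConj_iff.1 h
    rw [← hc1, conj_pow, pow_orderOf_eq_one]
    group
  rw [h1.mul_pow, pow_orderOf_eq_one, one_mul] at h2
  obtain ⟨k, hk⟩ := hl ⟨z, MonoidHom.mem_ker.2 hz⟩
  have hk' : z ^ ℓ ^ k = 1 := by
    have := congrArg (Subtype.val : p.ker → G) hk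
    simpa using this
  have h3 : orderOf z ∣ 1 := by
    have h4 : Nat.Coprime (orderOf x) (ℓ ^ k) :=
      (((Fact.out : ℓ.Prime).coprime_iff_not_dvd.2 hx).symm).pow_right k
    rw [← h4]
    exact Nat.dvd_gcd (orderOf_dvd_of_pow_eq_one h2) (orderOf_dvd_of_pow_eq_one hk')
  exact orderOf_eq_one_iff.1 (Nat.dvd_one.1 h3)

theorem cn_reg (hc : p.ker ≤ Subgroup.center G) (hl : IsPGroup ℓ p.ker) {x : G}
    (hx : ¬ ℓ ∣ orderOf x) : cn p x = 1 := by
  unfold cn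
  rw [Finset.card_eq_one]
  refine ⟨1, Finset.eq_singleton_iff_unique_mem.2 ⟨?_, ?_⟩⟩
  · refine Finset.mem_filter.2 ⟨Finset.mem_univ _, map_one p, ?_⟩
    rw [mul_one]
  · intro z hz
    obtain ⟨h1, h2⟩ := (Finset.mem_filter.1 hz).2
    exact reg_eq_one p hc hl hx h1 h2

/-- `ℓ`-regular elements have `ℓ`-regular lifts -/
theorem reg_lift (hp : Function.Surjective p) {y : H} (hy : ¬ ℓ ∣ orderOf y) :
    ∃ x : G, p x = y ∧ ¬ ℓ ∣ orderOf x := by
  obtain ⟨x, rfl⟩ := hp y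
  have hpr : ℓ.Prime := Fact.out
  have hx0 : orderOf x ≠ 0 := (orderOf_pos x).ne'
  obtain ⟨m, m', hm, hm''⟩ := Nat.exists_eq_pow_mul_and_not_dvd hx0 ℓ hpr.ne_one
  have hcop : Nat.Coprime (ℓ ^ m) m' := (hpr.coprime_iff_not_dvd.2 hm).pow_left m
  obtain ⟨c, hc1, hc2⟩ := Nat.chineseRemainder hcop 0 1
  refine ⟨x ^ c, ?_, ?_⟩
  · rw [map_pow]
    have h1 : orderOf (p x) ∣ m' := by
      have h2 : orderOf (p x) ∣ ℓ ^ m * m' := hm'' ▸ orderOf_map_dvd p x
      exact (((hpr.coprime_iff_not_dvd.2 hy).symm).pow_right m).dvd_of_dvd_mul_left h2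
    have h3 : c ≡ 1 [MOD orderOf (p x)] := hc2.of_dvd h1
    conv_rhs => rw [← pow_one (p x)]
    exact (pow_eq_pow_iff_modEq).2 h3
  · intro hd
    apply hm
    refine hd.trans ?_
    rw [orderOf_dvd_iff_pow_eq_one, ← pow_mul, ← orderOf_dvd_iff_pow_eq_one, hm'']
    exact Nat.mul_dvd_mul_right ((Nat.modEq_zero_iff_dvd).1 hc1) m'

end ele

section defreg

variable {F : Type} [Field F] {π : integralClosure ℤ ℂ →+* F} (hπ : Function.Surjective π)
  {ℓ : ℕ} [Fact ℓ.Prime] [CharP F ℓ] {N : Type} [Group N] [Fintype N]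

theorem om_top (a : N → ℂ) (x : N) : om a (cls ⊤ x) = cen (MonoidHom.id N) a x := by
  unfold om cen
  congr 1
  simp only [MonoidHom.id_apply]
  rw [← Finset.sum_filter]
  refine Finset.sum_congr ?_ fun _ _ => rfl
  ext y
  rw [mem_cls, Finset.mem_filter, isConj_iff]
  constructor
  · rintro ⟨u, -, h⟩
    exact ⟨Finset.mem_univ _, u, h.symm⟩
  · rintro ⟨-, u, h⟩
    exact ⟨u, Subgroup.mem_top _, h.symm⟩

theorem extj_id (K1 : T_K1) (a : N → ℂ) : extj (MonoidHom.id N) a = a := by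
  funext n
  exact (K1 N N (MonoidHom.id N) Function.injective_id).1 a n

theorem range_id' : (MonoidHom.id N).range = ⊤ :=
  MonoidHom.range_eq_top.2 Function.surjective_id

theorem irr_top (K1 : T_K1) {a : N → ℂ} (ha : a ∈ Irr N) : a ∈ IrrS (⊤ : Subgroup N) := by
  have h := ((K1 N N (MonoidHom.id N) Function.injective_id).2.1 a).1 ha
  rwa [extj_id K1, range_id'] at h

include hπ in
theorem def_top (K1 : T_K1) (K2 : T_K2) (B9 : T_B9) {a : N → ℂ} (ha : a ∈ Irr N)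
    (D : Subgroup N) : IsDefect ℓ (RingHom.ker π) a D ↔ DefH ℓ ⊤ (lam π a) D := by
  rw [(K2 N N (MonoidHom.id N) Function.injective_id (RingHom.ker π) ℓ a D).1, extj_id K1,
    range_id', Subgroup.map_id]
  exact (B9 F π hπ ℓ N ⊤ a (irr_top K1 ha)).2.1 D

include hπ in
theorem lam_top (K1 : T_K1) (B2 : T_B2) {a : N → ℂ} (ha : a ∈ Irr N) (y : N) :
    lam π a (csum F (cls ⊤ y)) ≠ 0 ↔
      ¬ Cong (RingHom.ker π) (cen (MonoidHom.id N) a y) 0 := by
  obtain ⟨h1, h2⟩ := B2 F π hπ N ⊤ a (irr_top K1 ha) (cls ⊤ y) (fun n hn g hg =>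
    (cls_conj hn).2 hg)
  rw [om_top] at h1 h2
  rw [h2, cong_zero_iff π h1]

include hπ in
/-- an `ℓ`-regular defect class -/
theorem defreg (RS : T_RS) (C2 : T_C2) (B1 : T_B1) (B2 : T_B2) (B9 : T_B9) (K1 : T_K1)
    (K2 : T_K2) {a : N → ℂ} (ha : a ∈ Irr N) {D : Subgroup N}
    (hD : IsDefect ℓ (RingHom.ker π) a D) :
    ∃ y : N, ¬ ℓ ∣ orderOf y ∧ ¬ Cong (RingHom.ker π) (cen (MonoidHom.id N) a y) 0 ∧
      D ≤ Subgroup.centralizer {y} ∧ ¬ ℓ ∣ D.relIndex (Subgroup.centralizer {y}) := by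
  have hdef := (def_top hπ K1 K2 B9 ha D).1 hD
  have hh : CHom (⊤ : Subgroup N) (lam π a) := B1 F π hπ N ⊤ a (irr_top K1 ha)
  obtain ⟨hEp, hEM, ⟨x, hxM, hx1, hx2, hx3⟩, hmax⟩ := hdef
  have nM := nor_self (⊤ : Subgroup N)
  have hcs := AMc.H88.conjs_stable (⊤ : Subgroup N) D
  have hxSD : x ∈ SD ℓ ⊤ (conjs ⊤ D) := mem_SD_of_sylow hEp hEM hxM hx2 hx3
  have hc := csum_cls_mem_self (F := F) hxM
  set c : MonoidAlgebra F N := csum F (cls ⊤ x) with hcdef
  have hccls : ∀ g, c.coeff g ≠ 0 → g ∈ cls ⊤ x := by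
    intro g hg
    rw [hcdef, coeff_csum] at hg
    by_contra h
    exact hg (if_neg h)
  have hcSD : ∀ g, c.coeff g ≠ 0 → g ∈ SD ℓ ⊤ (conjs ⊤ D) := by
    intro g hg
    obtain ⟨m, hm, rfl⟩ := mem_cls.1 (hccls g hg)
    exact SD_conj (nor_iff nM hm) (hcs m hm) hxSD
  obtain ⟨k, hk⟩ := RS F ℓ N ⊤ c hc
  have hne : lam π a (c ^ (ℓ ^ k)) ≠ 0 := by
    rw [hh.map_pow hc]
    exact pow_ne_zero _ hx1
  obtain ⟨y, hyM, hyc, hy1⟩ := hh.exists_cls le_rfl le_rfl nM ((ZA F ⊤ ⊤).pow_mem hc _) hne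
  have hyreg := hk y hyc
  have hySD : y ∈ SD ℓ ⊤ (conjs ⊤ D) := by
    obtain ⟨n, hn⟩ := Nat.exists_eq_succ_of_ne_zero
      (pow_ne_zero k (Fact.out : ℓ.Prime).ne_zero)
    rw [hn, pow_succ'] at hyc
    exact C2 F ℓ N ⊤ (conjs ⊤ D) c hc (c ^ n) ((ZA F ⊤ ⊤).pow_mem hc n) hcSD y hyc
  obtain ⟨u, hu, hud⟩ := hmax y hyM hy1
  have e0 : u⁻¹ * y * u ∈ cls ⊤ y := mem_cls.2 ⟨u⁻¹, Subgroup.mem_top _, by group⟩
  have hy'SD : u⁻¹ * y * u ∈ SD ℓ ⊤ (conjs ⊤ D) := by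
    have hi : u⁻¹ ∈ (⊤ : Subgroup N) := Subgroup.mem_top _
    have := SD_conj (nor_iff nM hi) (hcs u⁻¹ hi) hySD
    rwa [inv_inv] at this
  have hEc : D ≤ Subgroup.centralizer {u⁻¹ * y * u} := by
    intro d hd
    have h1 := hud d hd
    rw [Subgroup.mem_centralizer_singleton_iff] at h1 ⊢
    have e2 : d * (u⁻¹ * y * u) = u⁻¹ * ((u * d * u⁻¹) * y) * u := by group
    rw [e2, h1]
    group
  refine ⟨u⁻¹ * y * u, ?_, ?_, hEc, ?_⟩
  · have h1 : orderOf (u⁻¹ * y * u) = orderOf y := by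
      have := MulEquiv.orderOf_eq (MulAut.conj u⁻¹) y
      rw [MulAut.conj_apply, inv_inv] at this
      exact this
    rw [h1]
    exact hyreg
  · rw [← lam_top hπ K1 B2 ha, cls_eq_of_mem e0]
    exact hy1
  · obtain ⟨E1, hEE, hEC, hE1, hEi⟩ := Pool.Agent.H76.EA.ext_sylow hEp hEc
    obtain ⟨D', ⟨v, _, hD'⟩, hED⟩ := hy'SD.2 E1 hE1 le_top hEC
    have h1 : Nat.card E1 ≤ Nat.card D := by
      refine (Nat.card_le_card_of_injective _ (Subgroup.inclusion_injective hED)).trans ?_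
      rw [hD', H25.AM.card_map_conj]
    rw [Subgroup.eq_of_le_of_card_ge hEE h1]
    exact hEi

end defreg

/-- the residue field -/
theorem exists_field (ℓ : ℕ) [Fact ℓ.Prime] (𝔪 : Ideal (integralClosure ℤ ℂ))
    (h𝔪 : 𝔪.IsMaximal) (hℓ : (ℓ : integralClosure ℤ ℂ) ∈ 𝔪) :
    ∃ (F : Type) (_ : Field F) (π : integralClosure ℤ ℂ →+* F),
      Function.Surjective π ∧ RingHom.ker π = 𝔪 ∧ CharP F ℓ := by
  refine ⟨integralClosure ℤ ℂ ⧸ 𝔪, Ideal.Quotient.field 𝔪, Ideal.Quotient.mk 𝔪,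
    Ideal.Quotient.mk_surjective, Ideal.mk_ker, ?_⟩
  let _ := Ideal.Quotient.field 𝔪
  rw [CharP.charP_iff_prime_eq_zero Fact.out]
  have : Ideal.Quotient.mk 𝔪 (ℓ : integralClosure ℤ ℂ) = 0 := Ideal.Quotient.eq_zero_iff_mem.2 hℓ
  rw [map_natCast] at this
  exact this

/-- `ℓ`-regular elements: the centraliser maps onto the centraliser -/
theorem map_cent {G H : Type} [Group G] [Fintype G] [Group H] [Fintype H] (p : G →* H)
    (hp : Function.Surjective p) (hc : p.ker ≤ Subgroup.center G) {ℓ : ℕ} [Fact ℓ.Prime]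
    (hl : IsPGroup ℓ p.ker) {y : G} (hy : ¬ ℓ ∣ orderOf y) :
    (Subgroup.centralizer {y}).map p = Subgroup.centralizer {p y} := by
  ext h
  constructor
  · rintro ⟨g, hg, rfl⟩
    have hg1 : g * y = y * g := Subgroup.mem_centralizer_singleton_iff.1 hg
    exact Subgroup.mem_centralizer_singleton_iff.2 (by rw [← map_mul, hg1, map_mul])
  · intro hh
    obtain ⟨g, rfl⟩ := hp h
    have h1 : p g * p y = p y * p g := Subgroup.mem_centralizer_singleton_iff.1 hh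
    refine ⟨g, Subgroup.mem_centralizer_singleton_iff.2 ?_, rfl⟩
    have hz : p (y⁻¹ * (g * y * g⁻¹)) = 1 := by
      rw [map_mul, map_inv, map_mul, map_mul, map_inv, h1]
      group
    have h2 : IsConj y (y * (y⁻¹ * (g * y * g⁻¹))) :=
      isConj_iff.2 ⟨g, by group⟩
    have h3 := reg_eq_one p hc hl hy hz h2
    have h4 : g * y * g⁻¹ = y := by
      have := congrArg (fun t => y * t) h3
      simpa using this
    have h5 : g * y = (g * y * g⁻¹) * g := by group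
    rw [h5, h4]

theorem qb (GB : T_GB) (RS : T_RS) (QI : T_QI) (C2 : T_C2) (C3 : T_C3) (B1 : T_B1) (B2 : T_B2)
    (B9 : T_B9) (K1 : T_K1) (K2 : T_K2) : T_QB := by
  intro ℓ _ 𝔪 h𝔪 hℓ G H _ _ _ _ p hp hc hl
  have GB' := (GB ℓ 𝔪 h𝔪 hℓ H).1
  obtain ⟨F, _, π, hπ, rfl, _⟩ := exists_field ℓ 𝔪 h𝔪 hℓ
  refine ⟨fun a ha b hb => ⟨fun h x => ?_, fun h => ?_⟩, fun a ha D hD => ?_⟩
  · rw [cen_inf p hp hc, cen_inf p hp hc]
    exact cong_nat_mul (h (p x)) _
  · refine GB' a ha b hb fun y hy => ?_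
    obtain ⟨x, rfl, hx⟩ := reg_lift p hp hy
    have := h x
    rw [cen_inf p hp hc, cen_inf p hp hc, cn_reg p hc hl hx, Nat.cast_one, one_mul,
      one_mul] at this
    exact this
  · have ha' : (fun g => a (p g)) ∈ Irr G := ((QI G H p hp).1 a).1 ha
    have hker : p.ker ≤ D := by
      obtain ⟨h1, ⟨x, hx1, hx2, hx3⟩, h4⟩ := hD
      have h5 : IsPGroup ℓ (D ⊔ p.ker : Subgroup G) := h1.to_sup_of_normal_right hl
      have h6 : D ⊔ p.ker ≤ Subgroup.centralizer {x} :=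
        sup_le hx2 (hc.trans (Subgroup.center_le_centralizer _))
      have := Pool.Agent.H76.EA.eq_of_sylow_le h5 h6 h1 le_sup_left hx3
      rw [← this]
      exact le_sup_right
    refine ⟨hker, hD.1.map p, ?_, ?_⟩
    · obtain ⟨y, hy, hy1, hy2, hy3⟩ := defreg hπ RS C2 B1 B2 B9 K1 K2 ha' hD
      have hmap := map_cent p hp hc hl hy
      refine ⟨p y, ?_, ?_, ?_⟩
      · intro h
        apply hy1
        rw [cen_inf p hp hc, cn_reg p hc hl hy, Nat.cast_one, one_mul]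
        exact h
      · rw [← hmap]
        exact Subgroup.map_mono hy2
      · rw [← hmap, Subgroup.relIndex_map_map, sup_eq_left.2 hker,
          sup_eq_left.2 (hker.trans hy2)]
        exact hy3
    · have hhH : CHom (⊤ : Subgroup H) (lam π a) := B1 F π hπ H ⊤ a (irr_top K1 ha)
      obtain ⟨E, hE⟩ := C3 F ℓ H ⊤ (lam π a) hhH
      have hE' := (def_top hπ K1 K2 B9 ha E).2 hE
      obtain ⟨y0, hy0, hy1, hy2, hy3⟩ := defreg hπ RS C2 B1 B2 B9 K1 K2 ha hE'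
      obtain ⟨x0, rfl, hx0⟩ := reg_lift p hp hy0
      obtain ⟨g, hg⟩ := hD.2.2 x0 (by
        rw [cen_inf p hp hc, cn_reg p hc hl hx0, Nat.cast_one, one_mul]
        exact hy1)
      have hSD : p x0 ∈ SD ℓ ⊤ (conjs ⊤ E) :=
        mem_SD_of_sylow hE.1 le_top (Subgroup.mem_top _) hy2 (by rwa [inf_top_eq])
      obtain ⟨E', ⟨v, -, rfl⟩, hle⟩ := hSD.2
        ((D.map p).map (MulAut.conj (p g)).toMonoidHom) ((hD.1.map p).map _) le_top (by
          rintro _ ⟨_, ⟨d, hd, rfl⟩, rfl⟩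
          have h1 := Subgroup.mem_centralizer_singleton_iff.1 (hg d hd)
          refine Subgroup.mem_centralizer_singleton_iff.2 ?_
          have h2 := congrArg p h1
          simp only [map_mul, map_inv] at h2
          exact h2)
      intro x hx
      obtain ⟨w, hw⟩ := hE'.2.2 x hx
      refine ⟨w * v⁻¹ * p g, fun d hd => ?_⟩
      obtain ⟨e, he, he'⟩ := hle ⟨d, hd, rfl⟩
      have h1 := hw e he
      simp only [MulEquiv.coe_toMonoidHom, MulAut.conj_apply] at he'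
      have h2 : w * v⁻¹ * p g * d * (w * v⁻¹ * p g)⁻¹ =
          w * v⁻¹ * (p g * d * (p g)⁻¹) * (w * v⁻¹)⁻¹ := by group
      rw [h2, ← he']
      have h3 : w * v⁻¹ * (v * e * v⁻¹) * (w * v⁻¹)⁻¹ = w * e * w⁻¹ := by group
      rw [h3]
      exact h1

end Pool.Agent.H4.EA
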